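import Pool.Agent.E8helper70.Sph.Struct

/-! # MP_b5f63d_co: kissing configurations of nearly maximal size have no structure at all scales

Let `c₊ = limsup (1 / n) log_2 τ(n)`. There is `η > 0` such that every kissing configuration `C` of
`ℝⁿ` with at least `2 ^ ((c₊ - η) n)` points (`n` large) is unstructured: for every subspace `V` of
dimension at least `ε n`, all but an exponentially small part of the points of `C` have
`‖P_V x‖² > ρ` with a fixed `ρ > 0`; if `dim V ≤ (1 - ε) n`, then `‖P_V x‖² < 1 - ρ` similarly; and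
if `dim V ≤ κ n`, then `‖P_V x‖² < δ`. The same is true for all spherical codes with inner products
at most `s`, `0 < s < 1`; kissing configurations are the case `s = 1 / 2`.

Proof: the part of `C` with small projection to `V` gives a code of the orthogonal complement, of
dimension `(1 - ε) n`, with inner products at most `s + O(ρ)`, and the rate is positive and
continuous in `s`. The part of `C` with `‖P_V x‖² ≥ δ` is divided according to the direction and the
length of `P_V x`, and each part gives a code of the orthogonal complement with inner products at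
most `s - (1 - s) δ / 2`; that the rate is strictly larger at `s` comes from projections of a code
to coordinate subspaces. -/

open Filter

namespace Pool.Agent.Results.MP_b5f63d_co.NearOptimalH70

/-- `ℝⁿ` -/
abbrev E (n : ℕ) : Type := EuclideanSpace ℝ (Fin n)

/-- `C` is a set of unit vectors of `ℝⁿ` with mutual inner products at most `s`; for `s = 1 / 2`
these are the kissing configurations -/
def IsCode (n : ℕ) (s : ℝ) (C : Finset (E n)) : Prop :=
  (∀ x ∈ C, ‖x‖ = 1) ∧ ∀ x ∈ C, ∀ y ∈ C, x ≠ y → inner ℝ x y ≤ s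

/-- the largest size of such a set; `A n (1 / 2)` is the kissing number of `ℝⁿ` -/
noncomputable def A (n : ℕ) (s : ℝ) : ℕ := sSup {k | ∃ C : Finset (E n), IsCode n s C ∧ C.card = k}

/-- `limsup (1 / n) log_2 A(n, s)`; `rate (1 / 2)` is the constant `c₊` of the problem -/
noncomputable def rate (s : ℝ) : ℝ := limsup (fun n : ℕ => Real.logb 2 (A n s) / n) atTop

/-- the square of the length of the orthogonal projection of `x` to `V` -/
noncomputable def energy {n : ℕ} (V : Submodule ℝ (E n)) (x : E n) : ℝ := ‖V.starProjection x‖ ^ 2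

/-- the dimension of `V` -/
noncomputable def dim {n : ℕ} (V : Submodule ℝ (E n)) : ℝ := Module.finrank ℝ V

open Classical in
/-- the points of `C` that satisfy `P` are at most `|C| / 2 ^ (η n)` -/
def Few {n : ℕ} (η : ℝ) (C : Finset (E n)) (P : E n → Prop) : Prop :=
  ((C.filter P).card : ℝ) ≤ (2 : ℝ) ^ (-η * n) * C.card

/-- few points of `C` have energy at most `ρ` in a given subspace of dimension at least `ε n`, or
energy at least `1 - ρ` in a given subspace of dimension at most `(1 - ε) n`, or energy at least `δ`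
in a given subspace of dimension at most `κ n`, or an inner product of absolute value at least `δ`
with a given unit vector -/
def Unstructured {n : ℕ} (ε δ ρ κ η : ℝ) (C : Finset (E n)) : Prop :=
  (∀ V : Submodule ℝ (E n), ε * n ≤ dim V → Few η C (fun x => energy V x ≤ ρ)) ∧
  (∀ V : Submodule ℝ (E n), dim V ≤ (1 - ε) * n → Few η C (fun x => 1 - ρ ≤ energy V x)) ∧
  (∀ V : Submodule ℝ (E n), dim V ≤ κ * n → Few η C (fun x => δ ≤ energy V x)) ∧
  (∀ y : E n, ‖y‖ = 1 → Few η C (fun x => δ ≤ |inner ℝ x y|))

theorem few_of {n : ℕ} {η : ℝ} {C : Finset (E n)} {P : E n → Prop}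
    (i : DecidablePred P) (h : ((@Finset.filter _ P i C).card : ℝ) ≤ (2 : ℝ) ^ (-η * n) * C.card) :
    Few η C P := by
  unfold Few
  rw [Subsingleton.elim i (fun a => Classical.propDecidable (P a))] at h
  exact h

/-- **Structure of codes of nearly maximal exponential size.** -/
theorem result (s : ℝ) (h0 : 0 < s) (h1 : s < 1) :
    -- for all `ε, δ` there are `ρ, κ, η` such that all large codes of nearly maximal size are
    -- unstructured
    (∀ ε δ : ℝ, 0 < ε → ε < 1 → 0 < δ → ∃ ρ κ η : ℝ, 0 < ρ ∧ 0 < κ ∧ 0 < η ∧ ∃ n₀ : ℕ, ∀ n : ℕ, n₀ ≤ n →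
      ∀ C : Finset (E n), IsCode n s C → (2 : ℝ) ^ ((rate s - η) * n) ≤ C.card →
        Unstructured ε δ ρ κ η C) ∧
    -- and such codes exist in infinitely many dimensions
    (∀ η : ℝ, 0 < η → ∀ N : ℕ, ∃ n : ℕ, N ≤ n ∧ ∃ C : Finset (E n), IsCode n s C ∧
      (2 : ℝ) ^ ((rate s - η) * n) ≤ C.card) := by
  refine ⟨?_, fun η hη N => E8helper70.Sph.exists_near h0.le h1 hη N⟩
  intro ε δ hε0 hε1 hδ
  obtain ⟨ρ, κ, η, hρ, hκ, hη, n₀, H⟩ := E8helper70.Sph.struct h0 h1 hε0 hε1 hδ
  refine ⟨ρ, κ, η, hρ, hκ, hη, n₀, fun n hn C hC hcard => ?_⟩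
  obtain ⟨H1, H2, H3, H4, -⟩ := H n hn C hC hcard
  exact ⟨fun V h => few_of _ (H1 V h), fun V h => few_of _ (H2 V h), fun V h => few_of _ (H3 V h),
    fun y hy => few_of _ (H4 y hy)⟩

end Pool.Agent.Results.MP_b5f63d_co.NearOptimalH70
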