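import Mathlib
import Pool.Agent.E8helper37.KA.Asym

/-!
# MP_b5f63d_co: large kissing configurations have no additive structure

Let `X` be a spherical code of `ℝⁿ` with inner products at most `s` and let `A n s` be the maximal
size of such codes. With `opp s = (3 s - 1) / (1 + s)`:

* at most `A n (opp s)` points of `X` lie at distance one from a point `z` with `‖z‖² ≥ 2 - 2 s`;
  two translates of `X` have at most `A n (opp s)` common points;
* the additive energy satisfies `E[X, Y] ≤ |X| |Y| + A n (opp s) |Y|²` for every finite set `Y`, so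
  `|X + Y| ≥ |X|² |Y| / (|X| + A n (opp s) |Y|)`; for `s ≤ 1 / 3` one has `A n (opp s) ≤ 2 n`.

For kissing configurations `s = 1 / 2` and `opp s = 1 / 3`, and the linear programming bound for the
angle `arccos (1 / 3)`, `2 ^ (0.1974 n)`, is smaller than the lower bound `2 ^ (0.2075 n)` for the
kissing number `τ(n) = A n (1 / 2)`. Therefore, for all large `n`, every kissing configuration `X`
with at least `2 ^ (- n / 200) τ(n)` points has additive energy at most `2 ^ (- n / 200) |X| ^ 3`,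
`|X + Y| ≥ 2 ^ (n / 200) |X|` for all `Y` with `|Y| ≥ |X|` (for example `X + X`, `X - X`), and
`|X + Y| ≥ |X| |Y| / 2` for all `Y` with at most `2 ^ (n / 200)` points.
-/

set_option autoImplicit false

open scoped InnerProductSpace Pointwise Combinatorics.Additive
open Filter

namespace Pool.Agent.Results.MP_b5f63d_co.NoAdditiveStructureH37

/-- `X` is a spherical code: unit vectors, any two distinct ones with inner product at most `s`.
For `s = 1 / 2` these are the kissing configurations. -/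
def IsCode {n : ℕ} (s : ℝ) (X : Finset (EuclideanSpace ℝ (Fin n))) : Prop :=
  (∀ x ∈ X, ‖x‖ = 1) ∧ ∀ x ∈ X, ∀ y ∈ X, x ≠ y → ⟪x, y⟫_ℝ ≤ s

/-- The largest number of points of a spherical code with inner products at most `s`. -/
noncomputable def A (n : ℕ) (s : ℝ) : ℕ :=
  sSup {k | ∃ X : Finset (EuclideanSpace ℝ (Fin n)), IsCode s X ∧ X.card = k}

/-- The kissing number. -/
noncomputable def τ (n : ℕ) : ℕ := A n (1 / 2)

/-- `(3 s - 1) / (1 + s)` -/
noncomputable def opp (s : ℝ) : ℝ := (3 * s - 1) / (1 + s)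

open Classical in
/-- The number of common points of `X` and `X + z`. -/
noncomputable def common {n : ℕ} (X : Finset (EuclideanSpace ℝ (Fin n)))
    (z : EuclideanSpace ℝ (Fin n)) : ℕ := (X.filter fun x => x - z ∈ X).card

open Classical in
/-- The additive energy: the number of `(x, x', y, y')` with `x + y = x' + y'`. -/
noncomputable def energy {n : ℕ} (X Y : Finset (EuclideanSpace ℝ (Fin n))) : ℕ := E[X, Y]

open Classical in
/-- The number of elements of the sumset `X + Y`. -/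
noncomputable def sums {n : ℕ} (X Y : Finset (EuclideanSpace ℝ (Fin n))) : ℕ := (X + Y).card

/-- The inequalities for all codes. -/
def Codes : Prop :=
  ∀ (n : ℕ) (s : ℝ) (X : Finset (EuclideanSpace ℝ (Fin n))), 0 < n → 0 ≤ s → s < 1 →
    IsCode s X →
    (∀ z, 2 - 2 * s ≤ ‖z‖ ^ 2 → (X.filter fun x => ‖x - z‖ = 1).card ≤ A n (opp s)) ∧
    (∀ z, z ≠ 0 → common X z ≤ A n (opp s)) ∧
    (∀ Y : Finset (EuclideanSpace ℝ (Fin n)),
      energy X Y ≤ X.card * Y.card + A n (opp s) * Y.card ^ 2 ∧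
      X.card ^ 2 * Y.card ≤ sums X Y * (X.card + A n (opp s) * Y.card)) ∧
    (s ≤ 1 / 3 → A n (opp s) ≤ 2 * n)

/-- All kissing configurations `X` in large dimensions. -/
def Kissing : Prop :=
  ∀ᶠ n : ℕ in atTop, ∀ X : Finset (EuclideanSpace ℝ (Fin n)), IsCode (1 / 2) X →
    (∀ z, z ≠ 0 → (common X z : ℝ) ≤ 2 ^ ((1974 / 10000 : ℝ) * n)) ∧
    (∀ Y : Finset (EuclideanSpace ℝ (Fin n)), (X.card : ℝ) ^ 2 * Y.card ≤
      sums X Y * (X.card + 2 ^ ((1974 / 10000 : ℝ) * n) * Y.card)) ∧
    (energy X X : ℝ) ≤ 2 ^ ((1975 / 10000 : ℝ) * n) * (X.card : ℝ) ^ 2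

/-- Nearly optimal kissing configurations in large dimensions. -/
def NearlyOptimal : Prop :=
  ∀ᶠ n : ℕ in atTop, ∀ X : Finset (EuclideanSpace ℝ (Fin n)), IsCode (1 / 2) X →
    (2 : ℝ) ^ (-(n : ℝ) / 200) * τ n ≤ X.card →
    (∀ z, z ≠ 0 → (common X z : ℝ) ≤ 2 ^ (-(n : ℝ) / 200) * X.card) ∧
    (energy X X : ℝ) ≤ 2 ^ (-(n : ℝ) / 200) * (X.card : ℝ) ^ 3 ∧
    (∀ Y : Finset (EuclideanSpace ℝ (Fin n)), X.card ≤ Y.card →
      (2 : ℝ) ^ ((n : ℝ) / 200) * X.card ≤ sums X Y) ∧
    ∀ Y : Finset (EuclideanSpace ℝ (Fin n)), (Y.card : ℝ) ≤ 2 ^ ((n : ℝ) / 200) →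
      (X.card : ℝ) * Y.card ≤ 2 * sums X Y

/-- **Main result.** -/
theorem result : Codes ∧ Kissing ∧ NearlyOptimal := by
  classical
  refine ⟨?_, ?_, ?_⟩
  · intro n s X hn hs0 hs1 hX
    refine ⟨?_, ?_, ?_, ?_⟩
    · intro z hz
      convert Pool.Agent.E8helper37.KA.card_sphere hn hs0 hs1 hX z hz using 1
      rfl
    · intro z hz
      exact Pool.Agent.E8helper37.KA.card_translate hn hs0 hs1 hX z hz
    · intro Y
      exact ⟨Pool.Agent.E8helper37.KA.energy_le hn hs0 hs1 hX Y,
        Pool.Agent.E8helper37.KA.sumset_ge hn hs0 hs1 hX Y⟩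
    · intro hs
      apply Pool.Agent.E8helper37.KA.A_zero_le
      apply div_nonpos_of_nonpos_of_nonneg <;> linarith
  · filter_upwards [Pool.Agent.E8helper37.KA.asym] with n hn X hX
    obtain ⟨h1, h2, h3, -⟩ := hn X hX
    exact ⟨h1, h2, h3⟩
  · filter_upwards [Pool.Agent.E8helper37.KA.asym] with n hn X hX hXl
    obtain ⟨-, -, -, h4⟩ := hn X hX
    exact h4 hXl

end Pool.Agent.Results.MP_b5f63d_co.NoAdditiveStructureH37
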