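import Pool.Agent.E8helper70.Sph.OrbLim

/-! # MP_b5f63d_co: kissing configurations whose points are permutations of one bounded integer vector

Let `A(n, s)` be the largest number of unit vectors of `ℝⁿ` with mutual inner products at most `s`
(the kissing number for `s = 1 / 2`), and let `B(m, n, s)` be the largest size of such a code all of
whose points are, up to a common factor, obtained from ONE nonzero integer vector with entries in
`[-m, m]` by permutations of the coordinates. Then `B ≤ A`, there is an explicit inequality in the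
other direction in every dimension, and the exponential growth rates (both the upper and the lower
limits, so `c₊` and `c₋` for `s = 1 / 2`) of `A(n, s)` and of `B(m, n, s)` differ at most by
`c m ^ (-1 / 4)`. In particular the growth rates for kissing numbers are the limits, for `m → ∞`,
of the growth rates for the codes in single orbits of the symmetric groups `S_n` on the integer
vectors with entries in `[-m, m]`.

Proof: round the points of a code to the lattice `h ℤⁿ`, `h = δ / √n`. The entries larger than `m`
of the rounded vectors form integer vectors of small `ℓ¹` norm, so there are few possibilities for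
them (generating functions), and few compositions for the other entries; for two points in the same
class the contribution of the large entries to the inner product and to the squares of the lengths
is the same. -/

open Filter

namespace Pool.Agent.Results.MP_b5f63d_co.OrbitCodesH70

/-- the largest number of unit vectors of `ℝⁿ` with mutual inner products at most `s`;
`A n (1 / 2)` is the kissing number of `ℝⁿ` -/
noncomputable def A (n : ℕ) (s : ℝ) : ℕ :=
  sSup {k | ∃ C : Finset (EuclideanSpace ℝ (Fin n)),
    ((∀ x ∈ C, ‖x‖ = 1) ∧ ∀ x ∈ C, ∀ y ∈ C, x ≠ y → inner ℝ x y ≤ s) ∧ C.card = k}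

/-- `limsup (1 / n) log_2 A(n, s)`; `Rsup (1 / 2)` is the constant `c₊` of the problem -/
noncomputable def Rsup (s : ℝ) : ℝ := limsup (fun n : ℕ => Real.logb 2 (A n s) / n) atTop

/-- `liminf (1 / n) log_2 A(n, s)`; `Rinf (1 / 2)` is the constant `c₋` of the problem -/
noncomputable def Rinf (s : ℝ) : ℝ := liminf (fun n : ℕ => Real.logb 2 (A n s) / n) atTop

/-- `W` is a set of vectors obtained from one nonzero integer vector `v` with entries in `[-m, m]`
by permutations of the coordinates, and the inner products of different vectors of `W` are at most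
`s ‖v‖²` (the cosines of the angles are at most `s`) -/
def IsOrbitCode (m n : ℕ) (s : ℝ) (W : Finset (Fin n → ℤ)) : Prop :=
  ∃ v : Fin n → ℤ, v ≠ 0 ∧ (∀ i, |v i| ≤ m) ∧ (∀ w ∈ W, ∃ σ : Equiv.Perm (Fin n), w = v ∘ σ) ∧
    ∀ w ∈ W, ∀ w' ∈ W, w ≠ w' → ((∑ i, w i * w' i : ℤ) : ℝ) ≤ s * ((∑ i, v i ^ 2 : ℤ) : ℝ)

/-- the largest size of such a set -/
noncomputable def B (m n : ℕ) (s : ℝ) : ℕ :=
  sSup {k | ∃ W : Finset (Fin n → ℤ), IsOrbitCode m n s W ∧ W.card = k}

/-- `limsup (1 / n) log_2 B(m, n, s)` -/
noncomputable def Bsup (m : ℕ) (s : ℝ) : ℝ := limsup (fun n : ℕ => Real.logb 2 (B m n s) / n) atTop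

/-- `liminf (1 / n) log_2 B(m, n, s)` -/
noncomputable def Binf (m : ℕ) (s : ℝ) : ℝ := liminf (fun n : ℕ => Real.logb 2 (B m n s) / n) atTop

/-- **The exponential growth rates of spherical codes are the limits of those of the codes in one
orbit of the symmetric group on the bounded integer vectors.** -/
theorem result :
    -- the inequalities in every dimension
    (∀ (m n : ℕ) (s : ℝ), 0 ≤ s → s < 1 → B m n s ≤ A n s) ∧
    (∀ (m n : ℕ) (s t lam : ℝ), 1 ≤ m → 1 ≤ n → 0 ≤ s → s < t → t < 1 → 0 < lam → lam < 1 →
      A n s * lam ^ ⌊100 * n / ((t - s) ^ 2 * m)⌋₊ ≤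
        ((1 + lam) / (1 - lam)) ^ n * ((n : ℝ) + 1) ^ (2 * m + 1) * B m n t) ∧
    -- the rates
    (∀ s : ℝ, 0 < s → s < 1 → ∃ c : ℝ, ∀ m : ℕ, 1 ≤ m →
      (Bsup m s ≤ Rsup s ∧ Rsup s ≤ Bsup m s + c / (m : ℝ) ^ (1 / 4 : ℝ)) ∧
      (Binf m s ≤ Rinf s ∧ Rinf s ≤ Binf m s + c / (m : ℝ) ^ (1 / 4 : ℝ))) :=
  ⟨fun m n _ h0 h1 => E8helper70.Sph.B_le_A m n h0 h1,
    fun _ _ _ _ _ hm hn h0 hst h1 hl0 hl1 => E8helper70.Sph.explicit hm hn h0 hst h1 hl0 hl1,
    fun _ h0 h1 => E8helper70.Sph.orbit_rate h0 h1⟩

end Pool.Agent.Results.MP_b5f63d_co.OrbitCodesH70
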