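import Pool.Agent.E8helper70.Sph.Iso

/-! # MP_b5f63d_co: the rates of spherical codes divided by `1 + s` are monotone

Let `A(n, s)` be the largest number of unit vectors of `ℝⁿ` with mutual inner products at most `s`,
so that `A(n, 1 / 2)` is the kissing number, and let `R⁺(s)`, `R⁻(s)` be the upper and the lower
limit of `(1 / n) log_2 A(n, s)`. Both `R⁺(s) / (1 + s)` and `R⁻(s) / (1 + s)` are nondecreasing on
`[0, 1)`. Since both are positive for `s > 0`, the rates are strictly increasing, with slope at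
least `R(s) / (1 + s)`; for `s ≤ 1 / 2 ≤ t` this reads
`3 R(s) / (2 (1 + s)) ≤ c ≤ 3 R(t) / (2 (1 + t))` for `c = c₊` and for `c = c₋`.

Proof: some `k` coordinates carry on the average at most a part `k / n` of the length of the
vectors of a code; the vectors for which it is at most `λ k / n` give, after projection to the
other `n - k` coordinates, a code with inner products at most `(s + λ k / n) / (1 - λ k / n)`. -/

open Filter

namespace Pool.Agent.Results.MP_b5f63d_co.RatioMonotoneH70

/-- the largest number of unit vectors of `ℝⁿ` with mutual inner products at most `s`;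
`A n (1 / 2)` is the kissing number of `ℝⁿ` -/
noncomputable def A (n : ℕ) (s : ℝ) : ℕ :=
  sSup {k | ∃ C : Finset (EuclideanSpace ℝ (Fin n)),
    ((∀ x ∈ C, ‖x‖ = 1) ∧ ∀ x ∈ C, ∀ y ∈ C, x ≠ y → inner ℝ x y ≤ s) ∧ C.card = k}

/-- `limsup (1 / n) log_2 A(n, s)`; `Rsup (1 / 2)` is the constant `c₊` of the problem -/
noncomputable def Rsup (s : ℝ) : ℝ := limsup (fun n : ℕ => Real.logb 2 (A n s) / n) atTop

/-- `liminf (1 / n) log_2 A(n, s)`; `Rinf (1 / 2)` is the constant `c₋` of the problem -/
noncomputable def Rinf (s : ℝ) : ℝ := liminf (fun n : ℕ => Real.logb 2 (A n s) / n) atTop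

/-- **The rates divided by `1 + s` are nondecreasing.** -/
theorem result :
    -- the inequality in finite dimension
    (∀ n k : ℕ, 0 < n → k ≤ n → ∀ lam s : ℝ, 1 < lam → 0 ≤ s → s + 2 * (lam * k / n) < 1 →
      (1 - 1 / lam) * A n s ≤ A (n - k) ((s + lam * k / n) / (1 - lam * k / n))) ∧
    -- the rates
    (∀ s t : ℝ, 0 ≤ s → s ≤ t → t < 1 →
      Rsup s / (1 + s) ≤ Rsup t / (1 + t) ∧ Rinf s / (1 + s) ≤ Rinf t / (1 + t)) ∧
    (∀ s t : ℝ, 0 ≤ s → s < t → t < 1 → Rsup s < Rsup t ∧ Rinf s < Rinf t) :=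
  ⟨fun _ _ hn hk _ _ hl h0 hb => E8helper70.Sph.punct hk hn hl h0 hb,
    fun _ _ h0 h h1 => E8helper70.Sph.ratio_mono h0 h h1,
    fun _ _ h0 h h1 => E8helper70.Sph.strict h0 h h1⟩

end Pool.Agent.Results.MP_b5f63d_co.RatioMonotoneH70
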